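import Pool.Agent.Run7.h676.NI.Iface

/-!
# NI, piece GEN
-/

set_option autoImplicit false

open scoped commutatorElement

namespace Pool.Agent.Run7.h929.NI

open Pool.Agent.Run7.h676.NI

/-- GENA for an action given by a homomorphism -/
theorem gena_hom (hGENA : S_GENA) (V M : Type) [Group V] [Finite V]
    (hcomm : ∀ a b : V, a * b = b * a) [CommGroup M] [Finite M] (ψ : V →* MulAut M) (p : ℕ)
    (hp : p.Prime) (hexp : ∀ v : V, v ^ p = 1) (hM : ¬ p ∣ Nat.card M) (hV : Nontrivial V)
    (T : Subgroup M)
    (h : ∀ V' : Subgroup V, V'.index = p → ∀ m : M, (∀ v ∈ V', ψ v m = m) → m ∈ T) : T = ⊤ := by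
  let _ : CommGroup V := { (inferInstance : Group V) with mul_comm := hcomm }
  let _ : MulDistribMulAction V M := MulDistribMulAction.compHom M ψ
  exact hGENA V M p hp hexp hM hV T h

/-- conjugation by an element normalising `R` -/
def cj {Γ : Type} [Group Γ] (V R : Subgroup Γ) (h : ∀ v ∈ V, ∀ x ∈ R, v * x * v⁻¹ ∈ R) (v : V) :
    R ≃* R where
  toFun x := ⟨v * x * (v : Γ)⁻¹, h v v.2 x x.2⟩
  invFun x := ⟨(v : Γ)⁻¹ * x * v, by
    have h1 := h (v : Γ)⁻¹ (V.inv_mem v.2) x x.2
    rwa [inv_inv] at h1⟩
  left_inv x := by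
    apply Subtype.ext
    change (v : Γ)⁻¹ * (v * x * (v : Γ)⁻¹) * v = x
    group
  right_inv x := by
    apply Subtype.ext
    change (v : Γ) * ((v : Γ)⁻¹ * x * v) * (v : Γ)⁻¹ = x
    group
  map_mul' x y := by
    apply Subtype.ext
    change (v : Γ) * (x * y) * (v : Γ)⁻¹ = (v * x * (v : Γ)⁻¹) * (v * y * (v : Γ)⁻¹)
    group

/-- the action on the abelianisation -/
noncomputable def psi {Γ : Type} [Group Γ] (V R : Subgroup Γ)
    (h : ∀ v ∈ V, ∀ x ∈ R, v * x * v⁻¹ ∈ R) : V →* MulAut (Abelianization R) where
  toFun v := (cj V R h v).abelianizationCongr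
  map_one' := by
    ext m
    induction m using QuotientGroup.induction_on with
    | H x =>
      change Abelianization.of (cj V R h 1 x) = Abelianization.of x
      congr 1
      apply Subtype.ext
      change (1 : Γ) * x * (1 : Γ)⁻¹ = x
      group
  map_mul' v w := by
    ext m
    induction m using QuotientGroup.induction_on with
    | H x =>
      change Abelianization.of (cj V R h (v * w) x) = Abelianization.of (cj V R h v (cj V R h w x))
      congr 1
      apply Subtype.ext
      change ((v : Γ) * w) * x * ((v : Γ) * w)⁻¹ = v * (w * x * (w : Γ)⁻¹) * (v : Γ)⁻¹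
      group

theorem psi_of {Γ : Type} [Group Γ] (V R : Subgroup Γ)
    (h : ∀ v ∈ V, ∀ x ∈ R, v * x * v⁻¹ ∈ R) (v : V) (x : R) :
    psi V R h v (Abelianization.of x) = Abelianization.of (cj V R h v x) := rfl

theorem of_eq {Γ : Type} [Group Γ] (R : Subgroup Γ) (x y : R)
    (h : (Abelianization.of x : Abelianization R) = Abelianization.of y) :
    ((x : Γ)⁻¹ * y) ∈ (⁅R, R⁆ : Subgroup Γ) := by
  have h1 : x⁻¹ * y ∈ commutator R := QuotientGroup.eq.mp h
  rw [← Subgroup.map_subtype_commutator R]
  exact ⟨x⁻¹ * y, h1, rfl⟩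

theorem of_eq' {Γ : Type} [Group Γ] (R : Subgroup Γ) (x y : R)
    (h : ((x : Γ)⁻¹ * y) ∈ (⁅R, R⁆ : Subgroup Γ)) :
    (Abelianization.of x : Abelianization R) = Abelianization.of y := by
  rw [← Subgroup.map_subtype_commutator R] at h
  obtain ⟨z, hz, hzx⟩ := h
  have h1 : z = x⁻¹ * y := Subtype.ext hzx
  rw [h1] at hz
  exact QuotientGroup.eq.mpr hz

theorem t_GEN (hLIFT : S_LIFT) (hGENA : S_GENA) : S_GEN := by
  intro Γ _ _ p V R hV hVne hVR hRs hpR T hT
  have key : ∀ k : ℕ, ∀ R : Subgroup Γ, Nat.card R ≤ k → (∀ v ∈ V, ∀ x ∈ R, v * x * v⁻¹ ∈ R) →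
      Group.IsSolvable R → ¬ p ∣ Nat.card R →
      (∀ V' : Subgroup Γ, V' ≤ V → Nat.card V = p * Nat.card V' →
        ∀ x ∈ R, (∀ v ∈ V', v * x = x * v) → x ∈ T) → R ≤ T := by
    intro k
    induction k with
    | zero =>
      intro R hcard
      exact absurd hcard (by
        have : 0 < Nat.card R := Nat.card_pos
        omega)
    | succ k ih =>
      intro R hcard hVR hRs hpR hT
      by_cases hbot : R = ⊥
      · rw [hbot]; exact bot_le
      have hnt : Nontrivial R := (Subgroup.nontrivial_iff_ne_bot R).mpr hbot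
      have hlt : (⁅R, R⁆ : Subgroup Γ) < R := by
        have h1 := Group.IsSolvable.commutator_lt_top_of_nontrivial R
        rw [← Subgroup.map_subtype_commutator R]
        refine lt_of_le_of_ne (Subgroup.map_subtype_le _) ?_
        intro h2
        apply h1.ne
        rw [eq_top_iff]
        intro x _
        have h3 : (x : Γ) ∈ Subgroup.map R.subtype (commutator R) := by
          rw [h2]; exact x.2
        obtain ⟨z, hz, hzx⟩ := h3
        have : z = x := Subtype.ext hzx
        rw [← this]
        exact hz
      set R' : Subgroup Γ := ⁅R, R⁆ with hR'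
      have hR'le : R' ≤ R := hlt.le
      have hcard' : Nat.card R' ≤ k := by
        have h1 : Nat.card R' < Nat.card R := by
          have h2 : (R' : Set Γ) ⊂ (R : Set Γ) := hlt
          have h3 := Set.ncard_lt_ncard h2 (Set.toFinite _)
          simpa [Set.ncard_eq_toFinset_card', ← Nat.card_coe_set_eq] using h3
        omega
      have hpR' : ¬ p ∣ Nat.card R' := fun h => hpR (h.trans (Subgroup.card_dvd_of_le hR'le))
      have hVR' : ∀ v ∈ V, ∀ x ∈ R', v * x * v⁻¹ ∈ R' := by
        intro v hv x hx
        have h1 : R.map (MulAut.conj v).toMonoidHom ≤ R := by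
          rintro _ ⟨y, hy, rfl⟩
          exact hVR v hv y hy
        have h2 : R'.map (MulAut.conj v).toMonoidHom ≤ R' := by
          rw [hR', Subgroup.map_commutator]
          exact Subgroup.commutator_mono h1 h1
        exact h2 ⟨x, hx, rfl⟩
      have hsolv' : Group.IsSolvable R' :=
        Group.isSolvable_of_isSolvable_injective (Subgroup.inclusion_injective hR'le)
      have hR'T : R' ≤ T := ih R' hcard' hVR' hsolv' hpR' fun V' hV' hc x hx hxv =>
        hT V' hV' hc x (hR'le hx) hxv
      -- the abelianisation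
      have hfin : Finite (Abelianization R) := Quotient.finite _
      have hMcard : ¬ p ∣ Nat.card (Abelianization R) := by
        intro h
        apply hpR
        refine h.trans ?_
        exact Subgroup.card_quotient_dvd_card (commutator R)
      have hVnt : Nontrivial V := (Subgroup.nontrivial_iff_ne_bot V).mpr hVne
      have htop := gena_hom hGENA V (Abelianization R)
        (fun a b => Subtype.ext (hV.comm a a.2 b b.2)) (psi V R hVR) p hV.prime
        (fun v => Subtype.ext (by
          rw [SubmonoidClass.coe_pow]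
          exact hV.exp v v.2)) hMcard hVnt ((T.subgroupOf R).map Abelianization.of) (by
          intro V' hV' m hm
          induction m using QuotientGroup.induction_on with
          | H x =>
          have hxv : ∀ v ∈ V', (x : Γ)⁻¹ * (v * x * (v : Γ)⁻¹) ∈ R' := by
            intro v hv
            have h1 := hm v hv
            exact of_eq R x (cj V R hVR v x) h1.symm
          let W : Subgroup Γ := V'.map V.subtype
          have hWV : W ≤ V := Subgroup.map_subtype_le _
          have hWEA : EA p W := ⟨hV.prime, fun v hv w hw => hV.comm v (hWV hv) w (hWV hw),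
            fun v hv => hV.exp v (hWV hv)⟩
          have hWcard : Nat.card V = p * Nat.card W := by
            have h1 : Nat.card W = Nat.card V' :=
              Nat.card_congr (V'.equivMapOfInjective V.subtype V.subtype_injective).toEquiv.symm
            rw [h1, ← hV', Subgroup.index_mul_card]
          obtain ⟨n, hn, hxn⟩ := hLIFT Γ p W R' hWEA
            (fun v hv y hy => hVR' v (hWV hv) y hy) hpR' (x : Γ) (by
              rintro v ⟨v', hv', rfl⟩
              exact hxv v' hv')
          have hxT : (x : Γ) * n ∈ T := hT W hWV hWcard _ (R.mul_mem x.2 (hR'le hn)) hxn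
          refine ⟨⟨(x : Γ) * n, R.mul_mem x.2 (hR'le hn)⟩, hxT, ?_⟩
          apply of_eq'
          change ((x : Γ) * n)⁻¹ * x ∈ R'
          have h2 : ((x : Γ) * n)⁻¹ * x = n⁻¹ := by group
          rw [h2]
          exact R'.inv_mem hn)
      intro x hx
      have h1 : (Abelianization.of (⟨x, hx⟩ : R)) ∈ (T.subgroupOf R).map Abelianization.of := by
        rw [htop]
        exact Subgroup.mem_top _
      obtain ⟨y, hy, hyx⟩ := h1
      have h2 := of_eq R y ⟨x, hx⟩ hyx
      have h3 : x = (y : Γ) * ((y : Γ)⁻¹ * x) := by group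
      rw [h3]
      exact T.mul_mem hy (hR'T h2)
  exact key (Nat.card R) R le_rfl hVR hRs hpR hT

end Pool.Agent.Run7.h929.NI
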