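import Pool.Agent.Run7.h676.NI.Iface

/-!
# NI, piece GP
-/

set_option autoImplicit false

open scoped commutatorElement

namespace Pool.Agent.Run7.h929.NI

open Pool.Agent.Run7.h676.NI

/-- the elements all of whose conjugates by `K` are in `S` -/
def core' {Γ : Type} [Group Γ] (S K : Subgroup Γ) : Subgroup Γ where
  carrier := {c | ∀ x ∈ K, x⁻¹ * c * x ∈ S}
  mul_mem' := by
    intro a b ha hb x hx
    have h := S.mul_mem (ha x hx) (hb x hx)
    have h2 : x⁻¹ * a * x * (x⁻¹ * b * x) = x⁻¹ * (a * b) * x := by group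
    rwa [h2] at h
  one_mem' := by
    intro x _
    rw [mul_one, inv_mul_cancel]
    exact S.one_mem
  inv_mem' := by
    intro a ha x hx
    have h := S.inv_mem (ha x hx)
    have h2 : (x⁻¹ * a * x)⁻¹ = x⁻¹ * a⁻¹ * x := by group
    rwa [h2] at h

theorem mem_core' {Γ : Type} [Group Γ] (S K : Subgroup Γ) (c : Γ) :
    c ∈ core' S K ↔ ∀ x ∈ K, x⁻¹ * c * x ∈ S := Iff.rfl

theorem core_conj {Γ : Type} [Group Γ] (S K : Subgroup Γ) (c y : Γ) (hc : c ∈ core' S K)
    (hy : y ∈ K) : y * c * y⁻¹ ∈ core' S K := by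
  intro x hx
  have h := hc (y⁻¹ * x) (K.mul_mem (K.inv_mem hy) hx)
  have h2 : (y⁻¹ * x)⁻¹ * c * (y⁻¹ * x) = x⁻¹ * (y * c * y⁻¹) * x := by group
  rwa [h2] at h

theorem pow_core {Γ : Type} [Group Γ] (S K : Subgroup Γ) (c y : Γ) (hc : c ∈ core' S K)
    (hy : y ∈ K) (k : ℕ) : ∃ c' ∈ core' S K, (c * y) ^ k = c' * y ^ k := by
  induction k with
  | zero => exact ⟨1, (core' S K).one_mem, by simp⟩
  | succ k ih =>
    obtain ⟨c', hc', h⟩ := ih
    refine ⟨c' * (y ^ k * c * (y ^ k)⁻¹), (core' S K).mul_mem hc'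
      (core_conj S K c (y ^ k) hc (K.pow_mem hy k)), ?_⟩
    rw [pow_succ, h, pow_succ]
    group

/-- `p`-elements of `C K` lie in `C` -/
theorem claim {Γ : Type} [Group Γ] [Finite Γ] (p : ℕ) (hp : p.Prime) (S K : Subgroup Γ)
    (hK : ¬ p ∣ Nat.card K) (u c y : Γ) (hc : c ∈ core' S K) (hy : y ∈ K) (hu : u = c * y)
    (hup : u ^ p = 1) : u ∈ core' S K := by
  obtain ⟨c', hc', h⟩ := pow_core S K c y hc hy (Nat.card K)
  have hy1 : y ^ Nat.card K = 1 := by
    have h1 : (⟨y, hy⟩ : K) ^ Nat.card K = 1 := pow_card_eq_one'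
    have h2 := congrArg (Subtype.val : K → Γ) h1
    rw [SubmonoidClass.coe_pow] at h2
    exact h2
  rw [← hu, hy1, mul_one] at h
  -- `u` is a power of `u ^ |K|`
  have hcop : Nat.Coprime (Nat.card K) p := ((Nat.Prime.coprime_iff_not_dvd hp).mpr hK).symm
  obtain ⟨j, hj⟩ : ∃ j : ℕ, Nat.card K * j ≡ 1 [MOD p] := by
    obtain ⟨j, -, hj⟩ := Nat.exists_mul_mod_eq_one_of_coprime hcop hp.one_lt
    exact ⟨j, by rw [Nat.ModEq, hj, Nat.mod_eq_of_lt hp.one_lt]⟩
  have hord : orderOf u ∣ p := orderOf_dvd_of_pow_eq_one hup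
  have h3 : u ^ (Nat.card K * j) = u ^ 1 := by
    rw [pow_eq_pow_iff_modEq]
    exact hj.of_dvd hord
  rw [pow_one, pow_mul, h] at h3
  rw [← h3]
  exact (core' S K).pow_mem hc' j

theorem t_GP (hGPA : S_GPA) : S_GP := by
  intro Γ _ _ p L S V hV hL hLs hpL
  -- strong induction
  have key : ∀ k : ℕ, ∀ N : Subgroup Γ, N.Normal → N ≤ L → Nat.card N ≤ k → ∀ S : Subgroup Γ,
      ∃ g ∈ N, ∀ v ∈ V, g⁻¹ * v * g ∈ S → ∀ x ∈ N, x⁻¹ * v * x ∈ S := by
    intro k
    induction k with
    | zero =>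
      intro N _ _ hcard
      exact absurd hcard (by
        have : 0 < Nat.card N := Nat.card_pos
        omega)
    | succ k ih =>
      intro N hN hNL hcard S
      have hpN : ¬ p ∣ Nat.card N := fun h => hpL (h.trans (Subgroup.card_dvd_of_le hNL))
      by_cases hbot : N = ⊥
      · subst hbot
        refine ⟨1, Subgroup.one_mem _, ?_⟩
        intro v _ hv x hx
        rw [Subgroup.mem_bot] at hx
        rw [hx]
        exact hv
      · have hsolv : Group.IsSolvable N :=
          Group.isSolvable_of_isSolvable_injective (Subgroup.inclusion_injective hNL)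
        have hnt : Nontrivial N := (Subgroup.nontrivial_iff_ne_bot N).mpr hbot
        have hlt : (⁅N, N⁆ : Subgroup Γ) < N := by
          have h1 := Group.IsSolvable.commutator_lt_top_of_nontrivial N
          rw [← Subgroup.map_subtype_commutator N]
          refine lt_of_le_of_ne (Subgroup.map_subtype_le _) ?_
          intro h2
          apply h1.ne
          rw [eq_top_iff]
          intro x _
          have h3 : (x : Γ) ∈ Subgroup.map N.subtype (commutator N) := by
            rw [h2]; exact x.2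
          obtain ⟨z, hz, hzx⟩ := h3
          have : z = x := Subtype.ext hzx
          rw [← this]
          exact hz
        set N₁ : Subgroup Γ := ⁅N, N⁆ with hN₁
        have hN₁n : N₁.Normal := Subgroup.commutator_normal N N
        have hN₁le : N₁ ≤ N := hlt.le
        have hcard₁ : Nat.card N₁ ≤ k := by
          have h1 : Nat.card N₁ < Nat.card N := by
            have h2 : (N₁ : Set Γ) ⊂ (N : Set Γ) := hlt
            have h3 := Set.ncard_lt_ncard h2 (Set.toFinite _)
            simpa [Set.ncard_eq_toFinset_card', ← Nat.card_coe_set_eq] using h3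
          omega
        have hpN₁ : ¬ p ∣ Nat.card N₁ := fun h => hpN (h.trans (Subgroup.card_dvd_of_le hN₁le))
        set C₁ : Subgroup Γ := core' S N₁ with hC₁
        set Sh : Subgroup Γ := C₁ ⊔ N₁ with hSh
        have hcomm : ∀ x ∈ N, ∀ y ∈ N, ⁅x, y⁆ ∈ Sh := fun x hx y hy =>
          (le_sup_right : N₁ ≤ Sh) (Subgroup.commutator_mem_commutator hx hy)
        obtain ⟨n, hn, hnV⟩ := hGPA Γ p N Sh V hV hN hpN hcomm
        -- the conjugate subgroup
        let Sn : Subgroup Γ := S.comap (MulAut.conj n⁻¹).toMonoidHom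
        have hSn : ∀ s, s ∈ Sn ↔ n⁻¹ * s * n ∈ S := by
          intro s
          change (MulAut.conj n⁻¹) s ∈ S ↔ _
          rw [MulAut.conj_apply, inv_inv]
        obtain ⟨m, hm, hmV⟩ := ih N₁ hN₁n (hN₁le.trans hNL) hcard₁ Sn
        refine ⟨m * n, N.mul_mem (hN₁le hm) hn, ?_⟩
        intro v hv hvS x hx
        have hclaim : ∀ z : Γ, z⁻¹ * v * z ∈ Sh → z⁻¹ * v * z ∈ C₁ := by
          intro z hz
          rw [hSh, Subgroup.mem_sup_of_normal_right] at hz
          obtain ⟨c, hc, y, hy, hcy⟩ := hz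
          refine claim p hV.prime S N₁ hpN₁ _ c y hc hy hcy.symm ?_
          have h1 : (z⁻¹ * v * z) ^ p = z⁻¹ * v ^ p * z := by
            have h2 := conj_pow (i := p) (a := z⁻¹) (b := v)
            rw [inv_inv] at h2
            exact h2
          rw [h1, hV.exp v hv, mul_one, inv_mul_cancel]
        have h1 : m⁻¹ * v * m ∈ Sn := by
          rw [hSn]
          have h2 : n⁻¹ * (m⁻¹ * v * m) * n = (m * n)⁻¹ * v * (m * n) := by group
          rw [h2]
          exact hvS
        have h2 := hmV v hv h1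
        have h3 : n⁻¹ * v * n ∈ C₁ := by
          intro x' hx'
          have h4 := h2 (n * x' * n⁻¹) (hN₁n.conj_mem x' hx' n)
          rw [hSn] at h4
          have h5 : n⁻¹ * ((n * x' * n⁻¹)⁻¹ * v * (n * x' * n⁻¹)) * n = x'⁻¹ * (n⁻¹ * v * n) * x' := by
            group
          rwa [h5] at h4
        have h4 := hnV v hv ((le_sup_left : C₁ ≤ Sh) h3) x hx
        have h5 := hclaim x h4 1 N₁.one_mem
        simpa using h5
  exact key (Nat.card L) L hL le_rfl le_rfl S

end Pool.Agent.Run7.h929.NI
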