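import Pool.Agent.Run7.h676.NI.Iface

/-!
# NI, piece PROJ
-/

set_option autoImplicit false

namespace Pool.Agent.Run7.h929.NI

open Pool.Agent.Run7.h676.NI

theorem t_PROJ : S_PROJ := by
  classical
  intro k W ι J _ _ _ T u A c χ hA hsum T' hT'
  obtain ⟨n, hn⟩ : ∃ n, (T \ T').card = n := ⟨_, rfl⟩
  induction n generalizing T u with
  | zero =>
    have h1 : T ⊆ T' := Finset.sdiff_eq_empty_iff_subset.mp (Finset.card_eq_zero.mp hn)
    have h2 : T' ⊆ T := fun i hi => ((hT' i).mp hi).1
    rw [Finset.Subset.antisymm h2 h1]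
    exact hsum
  | succ n ih =>
    obtain ⟨i₀, hi₀⟩ : (T \ T').Nonempty := by
      rw [← Finset.card_pos]
      omega
    rw [Finset.mem_sdiff] at hi₀
    have hne : c i₀ ≠ χ := fun h => hi₀.2 ((hT' i₀).mpr ⟨hi₀.1, h⟩)
    obtain ⟨j, hj⟩ : ∃ j, c i₀ j ≠ χ j := by
      by_contra h
      push Not at h
      exact hne (funext h)
    have h1 : ∑ i ∈ T, (c i j - c i₀ j) • u i = 0 := by
      have h2 : ∑ i ∈ T, c i j • u i = 0 := by
        have h3 := congrArg (A j) hsum
        rw [map_sum, map_zero] at h3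
        rw [← h3]
        exact Finset.sum_congr rfl fun i hi => (hA i hi j).symm
      have h3 : ∑ i ∈ T, c i₀ j • u i = 0 := by
        rw [← Finset.smul_sum, hsum, smul_zero]
      rw [← sub_zero (0 : W)]
      nth_rewrite 1 [← h2]
      rw [← h3, ← Finset.sum_sub_distrib]
      exact Finset.sum_congr rfl fun i _ => sub_smul _ _ _
    have h2 : ∑ i ∈ T.erase i₀, (c i j - c i₀ j) • u i = 0 := by
      rw [← Finset.add_sum_erase T _ hi₀.1, sub_self, zero_smul, zero_add] at h1
      exact h1
    have h3 := ih (T.erase i₀) (fun i => (c i j - c i₀ j) • u i)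
      (by
        intro i hi j'
        rw [map_smul, hA i (Finset.mem_of_mem_erase hi) j', smul_comm])
      h2
      (by
        intro i
        rw [hT' i, Finset.mem_erase]
        constructor
        · rintro ⟨h4, h5⟩
          refine ⟨⟨?_, h4⟩, h5⟩
          rintro rfl
          exact hne h5
        · rintro ⟨⟨-, h4⟩, h5⟩
          exact ⟨h4, h5⟩)
      (by
        have h4 : T.erase i₀ \ T' = (T \ T').erase i₀ := by
          ext i
          simp only [Finset.mem_sdiff, Finset.mem_erase]
          tauto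
        rw [h4, Finset.card_erase_of_mem (Finset.mem_sdiff.mpr hi₀), hn]
        rfl)
    have h4 : ∑ i ∈ T', (c i j - c i₀ j) • u i = (χ j - c i₀ j) • ∑ i ∈ T', u i := by
      rw [Finset.smul_sum]
      refine Finset.sum_congr rfl fun i hi => ?_
      rw [((hT' i).mp hi).2]
    rw [h4] at h3
    exact (smul_eq_zero.mp h3).resolve_left (sub_ne_zero.mpr hj.symm)

end Pool.Agent.Run7.h929.NI
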